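import Pool.Agent.Helper28.VF.Plane

namespace Helper19.VF

open Helper28.VF Finset

variable {V : Type} {G : SimpleGraph V}

lemma connected_of_three (h : ThreeConnected G) : G.Connected := by
  have h0 := h.2 ∅ (by simp)
  have e : ((∅ : Finset V) : Set V)ᶜ = Set.univ := by simp
  rw [e] at h0
  exact (SimpleGraph.induceUnivIso G).connected_iff.1 h0

lemma exists_dart [Fintype V] (h : ThreeConnected G) (v : V) : ∃ d : G.Dart, d.fst = v := by
  have hc := connected_of_three h
  have h4 := h.1
  have hnt : Nontrivial V := by
    rw [← Fintype.one_lt_card_iff_nontrivial, ← Nat.card_eq_fintype_card]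
    omega
  obtain ⟨w, hw⟩ := hc.preconnected.exists_adj_of_nontrivial v
  exact ⟨⟨(v, w), hw⟩, rfl⟩

lemma fst_pow (R : Rotation G) (i : ℕ) (d : G.Dart) : ((R.rot ^ i) d).fst = d.fst := by
  induction i with
  | zero => rfl
  | succ i ih => rw [pow_succ', Equiv.Perm.mul_apply, R.fst_rot, ih]

theorem stmtToPM : StmtToPM := by
  intro V _ _ G _ _ _ _ R _ _ hG hP
  have hc := connected_of_three hG
  have hclosed : ∀ P : G.Dart → Prop, (∀ d, P d → P (R.rot d)) → ∀ d e : G.Dart, d.fst = e.fst →
      P d → P e := by
    intro P hPs d e hde hd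
    obtain ⟨i, hi⟩ := (R.cyclic d e hde).exists_nat_pow_eq
    rw [← hi]
    clear hi
    induction i with
    | zero => exact hd
    | succ i ih => rw [pow_succ', Equiv.Perm.mul_apply]; exact hPs _ ih
  refine ⟨{ σ := R.rot
            α := rev G
            vt := fun d => d.fst
            ed := fun d => ⟨d.edge, d.edge_mem⟩
            fc := R.face
            α_inv := fun d => d.symm_symm
            α_ne := fun d => d.symm_ne
            vt_iff := ?_
            ed_iff := ?_
            fc_iff := ?_
            vt_surj := exists_dart hG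
            ed_surj := ?_
            fc_surj := ?_
            conn := ?_
            euler := ?_ }, ?_, rfl, rfl, fun _ => rfl, fun _ => rfl, fun _ => rfl⟩
  · intro d e
    refine ⟨R.cyclic d e, ?_⟩
    intro h
    obtain ⟨i, hi⟩ := h.exists_nat_pow_eq
    rw [← hi]
    exact (fst_pow R i d).symm
  · intro d e
    constructor
    · intro h
      have h1 : d.edge = e.edge := congrArg Subtype.val h
      rw [SimpleGraph.dart_edge_eq_iff] at h1
      rcases h1 with h1 | h1
      · exact Or.inl h1.symm
      · right
        rw [h1]
        exact (e.symm_symm).symm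
    · rintro (h | h)
      · rw [h]
      · rw [h]
        apply Subtype.ext
        exact (d.edge_symm).symm
  · intro d e
    exact Quotient.eq
  · rintro ⟨e, he⟩
    induction e using Sym2.ind with
    | _ x y => exact ⟨⟨(x, y), he⟩, rfl⟩
  · exact Quotient.mk_surjective
  · rintro P ⟨d0, hd0⟩ hs ha
    have key : ∀ u v : V, G.Reachable u v → (∀ d : G.Dart, d.fst = u → P d) →
        ∀ d : G.Dart, d.fst = v → P d := by
      rintro u v ⟨w⟩
      induction w with
      | nil => exact fun h => h
      | cons hadj w ih =>
        intro h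
        apply ih
        intro d hd
        have h1 := h ⟨(_, _), hadj⟩ rfl
        have h2 := ha _ h1
        refine hclosed P hs _ d ?_ h2
        rw [hd]
        rfl
    intro d
    exact key d0.fst d.fst (hc.preconnected _ _) (fun e he => hclosed P hs d0 e he.symm hd0) d rfl
  · have := hP
    unfold Rotation.Planar at this
    rw [Nat.card_eq_fintype_card, Nat.card_eq_fintype_card, Nat.card_eq_fintype_card] at this
    exact this
  · refine ⟨?_, ?_, ?_, ?_⟩
    · intro d
      exact d.snd_ne_fst
    · intro d e h1 h2
      apply SimpleGraph.Dart.ext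
      exact Prod.ext h1 h2
    · have := hG.1
      rwa [Nat.card_eq_fintype_card] at this
    · rintro X B ⟨x, hx⟩ ⟨b, hb⟩ hdisj hnd
      by_contra hcon
      push Not at hcon
      have hcon' : (univ \ (X ∪ B)).card ≤ 2 := by omega
      have h1 := hG.2 _ hcon'
      have hmem : ∀ y, y ∈ ((univ \ (X ∪ B) : Finset V) : Set V)ᶜ ↔ y ∈ X ∨ y ∈ B := by
        intro y
        rw [Set.mem_compl_iff, mem_coe, mem_sdiff, mem_union]
        have := mem_univ y
        tauto
      have hx' := (hmem x).2 (Or.inl hx)
      have hb' := (hmem b).2 (Or.inr hb)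
      have key : ∀ u v : (((univ \ (X ∪ B) : Finset V) : Set V)ᶜ : Set V),
          (G.induce _).Reachable u v → u.1 ∈ X → v.1 ∈ X := by
        rintro u v ⟨w⟩
        induction w with
        | nil => exact fun h => h
        | @cons u v _ hadj w ih =>
          intro h
          apply ih
          have hadj' : G.Adj u.1 v.1 := hadj
          rcases (hmem v.1).1 v.2 with h2 | h2
          · exact h2
          · exact absurd h2 (hnd ⟨(u.1, v.1), hadj'⟩ h)
      have h2 := key ⟨x, hx'⟩ ⟨b, hb'⟩ (h1.preconnected _ _) hx
      exact (disjoint_left.1 hdisj) h2 hb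

end Helper19.VF
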