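import Pool.Agent.Helper28.VF.Plane

namespace Helper19.VF

open Helper28.VF Finset

theorem stmtTree : StmtTree := by
  intro D V _ _ _ _ σ α vt T O ψ r hα hvt hT hr hex huniq hψT hψN
  classical
  obtain ⟨p, hp0⟩ : ∃ p : V → V, ∀ v, (v = r → p v = r) ∧
      (v ≠ r → ∃ d, vt d = v ∧ O d ∧ p v = vt (α d)) := by
    have : ∀ v, ∃ w, (v = r → w = r) ∧ (v ≠ r → ∃ d, vt d = v ∧ O d ∧ w = vt (α d)) := by
      intro v
      by_cases h : v = r
      · exact ⟨r, fun _ => rfl, fun h' => absurd h h'⟩
      · obtain ⟨d, hd, hO⟩ := hex v h
        exact ⟨vt (α d), fun h' => absurd h' h, fun _ => ⟨d, hd, hO, rfl⟩⟩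
    choose p hp using this
    exact ⟨p, hp⟩
  have hpr : p r = r := (hp0 r).1 rfl
  have hpO : ∀ d, O d → p (vt d) = vt (α d) := by
    intro d hd
    obtain ⟨e, he1, he2, he3⟩ := (hp0 (vt d)).2 (hr d hd)
    rw [he3, huniq e d he1 he2 hd]
  set A : V → Prop := fun v => ∃ k, p^[k] v = r with hA
  have hAp : ∀ v, A (p v) ↔ A v := by
    intro v
    constructor
    · rintro ⟨k, hk⟩
      exact ⟨k + 1, by rw [Function.iterate_succ_apply]; exact hk⟩
    · rintro ⟨k, hk⟩
      cases k with
      | zero =>
        have : v = r := hk
        exact ⟨0, by rw [this]; exact hpr⟩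
      | succ k => exact ⟨k, by rw [Function.iterate_succ_apply] at hk; exact hk⟩
  set depth : V → ℕ := fun v => sInf {k | p^[k] v = r} with hdepth
  have hdep : ∀ w, w ≠ r → A w → depth (p w) < depth w := by
    intro w hw hAw
    have h1 : depth w ∈ {k | p^[k] w = r} := Nat.sInf_mem hAw
    have h2 : p^[depth w] w = r := h1
    cases hk : depth w with
    | zero => rw [hk] at h2; exact absurd h2 hw
    | succ k =>
      rw [hk, Function.iterate_succ_apply] at h2
      have : depth (p w) ≤ k := Nat.sInf_le h2
      omega
  obtain ⟨N, hN⟩ : ∃ N, ∀ v, depth v ≤ N := ⟨univ.sup depth, fun v => le_sup (mem_univ v)⟩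
  have hvtσ : ∀ d, vt (σ d) = vt d := by
    intro d
    rw [hvt]
    exact ⟨-1, by simp⟩
  have main : ∀ n v, N - depth v ≤ n → A v → ∀ d, vt d = v → ψ.SameCycle d (σ d) := by
    intro n
    induction n using Nat.strong_induction_on with
    | _ n ih =>
      intro v hv hAv
      have claim : ∀ d, vt d = v → ¬ O d → ψ.SameCycle d (σ d) := by
        intro d hd hO
        by_cases hTd : T d
        · have hOα : O (α d) := by
            rcases (hT d).1 hTd with h | h
            · exact absurd h hO
            · exact h
          have hw := hr _ hOα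
          have hpw := hpO _ hOα
          rw [hα, hd] at hpw
          have hAw : A (vt (α d)) := by rw [← hAp, hpw]; exact hAv
          have hdw := hdep _ hw hAw
          rw [hpw] at hdw
          have hNw := hN (vt (α d))
          have hQ := ih (N - depth (vt (α d))) (by omega) _ le_rfl hAw (α d) rfl
          have h1 : ψ.SameCycle d (σ (α d)) := by
            rw [← hψT d hTd]
            exact (Equiv.Perm.SameCycle.refl ψ d).apply_right
          have hTα : T (α d) := (hT _).2 (Or.inl hOα)
          have h2 : ψ.SameCycle (α d) (σ d) := by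
            have := hψT _ hTα
            rw [hα] at this
            rw [← this]
            exact (Equiv.Perm.SameCycle.refl ψ _).apply_right
          exact (h1.trans hQ.symm).trans h2
        · rw [← hψN d hTd]
          exact (Equiv.Perm.SameCycle.refl ψ d).apply_right
      intro d hd
      by_cases hO : O d
      · have hexk : ∃ k, σ^[k] (σ d) = d := by
          refine ⟨orderOf σ - 1, ?_⟩
          rw [← Function.iterate_succ_apply]
          have h0 := orderOf_pos σ
          have e : orderOf σ - 1 + 1 = orderOf σ := by omega
          rw [Nat.succ_eq_add_one, e, ← Equiv.Perm.coe_pow, pow_orderOf_eq_one]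
          rfl
        have hfind := Nat.find_spec hexk
        have hmin : ∀ j < Nat.find hexk, σ^[j] (σ d) ≠ d := fun j hj => Nat.find_min hexk hj
        have hvj : ∀ j, vt (σ^[j] (σ d)) = v := by
          intro j
          induction j with
          | zero => rw [Function.iterate_zero, id, hvtσ, hd]
          | succ j ihj => rw [Function.iterate_succ_apply', hvtσ, ihj]
        have hstep : ∀ j ≤ Nat.find hexk, ψ.SameCycle (σ d) (σ^[j] (σ d)) := by
          intro j
          induction j with
          | zero => exact fun _ => Equiv.Perm.SameCycle.refl ψ _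
          | succ j ihj =>
            intro hj
            rw [Function.iterate_succ_apply']
            refine (ihj (by omega)).trans (claim _ (hvj j) ?_)
            intro hOj
            exact hmin j (by omega) (huniq _ _ ((hvj j).trans hd.symm) hOj hO)
        have := hstep _ le_rfl
        rw [hfind] at this
        exact this.symm
      · exact claim d hd hO
  refine ⟨A, ⟨0, rfl⟩, ?_, ?_⟩
  · intro d hTd
    rcases (hT d).1 hTd with h | h
    · rw [← hpO d h, hAp]
    · have := hpO _ h
      rw [hα] at this
      rw [← this, hAp]
  · intro d hd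
    exact main _ (vt d) le_rfl hd d rfl

end Helper19.VF
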